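import Pool.Agent.Lib.MP_ad4d1c_co_h48.ExDefs

set_option autoImplicit false

/-!
# Module R: relabelling
-/

namespace Pool.Agent.Lib.MP_ad4d1c_co_h48.Ex

open Finset

/-! ## tools -/

theorem relR_subset_iff {f : ℕ → ℕ} {S A B : Finset ℕ} (hf : Set.InjOn f (S : Set ℕ))
    (hA : A ⊆ S) (hB : B ⊆ S) : A.image f ⊆ B.image f ↔ A ⊆ B := by
  constructor
  · intro h a ha
    have h1 : f a ∈ B.image f := h (Finset.mem_image_of_mem f ha)
    obtain ⟨c, hc, hca⟩ := Finset.mem_image.1 h1
    have : c = a := hf (Finset.mem_coe.2 (hB hc)) (Finset.mem_coe.2 (hA ha)) hca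
    exact this ▸ hc
  · intro h
    exact Finset.image_subset_image h

theorem relR_eq_iff {f : ℕ → ℕ} {S A B : Finset ℕ} (hf : Set.InjOn f (S : Set ℕ))
    (hA : A ⊆ S) (hB : B ⊆ S) : A.image f = B.image f ↔ A = B := by
  constructor
  · intro h
    exact Finset.Subset.antisymm ((relR_subset_iff hf hA hB).1 h.le)
      ((relR_subset_iff hf hB hA).1 h.ge)
  · intro h
    rw [h]

theorem relR_card {f : ℕ → ℕ} {S A : Finset ℕ} (hf : Set.InjOn f (S : Set ℕ))
    (hA : A ⊆ S) : (A.image f).card = A.card :=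
  Finset.card_image_of_injOn (hf.mono (Finset.coe_subset.2 hA))

theorem relR_sdiff {f : ℕ → ℕ} {S A B : Finset ℕ} (hf : Set.InjOn f (S : Set ℕ))
    (hA : A ⊆ S) (hB : B ⊆ S) : (A \ B).image f = A.image f \ B.image f := by
  ext y
  simp only [Finset.mem_image, Finset.mem_sdiff]
  constructor
  · rintro ⟨a, ⟨ha, hb⟩, rfl⟩
    refine ⟨⟨a, ha, rfl⟩, ?_⟩
    rintro ⟨c, hc, hca⟩
    have : c = a := hf (Finset.mem_coe.2 (hB hc)) (Finset.mem_coe.2 (hA ha)) hca
    exact hb (this ▸ hc)
  · rintro ⟨⟨a, ha, rfl⟩, hb⟩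
    exact ⟨a, ⟨ha, fun h => hb ⟨a, h, rfl⟩⟩, rfl⟩

theorem relR_toFinset (f : ℕ → ℕ) (l : List ℕ) : (l.map f).toFinset = l.toFinset.image f := by
  ext y
  simp

theorem rel_append (f : ℕ → ℕ) (T L : Fam) (l : ℕ) :
    rel f T l ++ rel f L l = (T l ++ L l).map (fun p => (p.1.image f, p.2.image f)) := by
  simp [rel]

theorem rel_nil (f : ℕ → ℕ) : rel f nil = nil := by
  funext l
  simp [rel, nil]

theorem rel_eq_nil_iff (f : ℕ → ℕ) (F : Fam) (l : ℕ) : rel f F l = [] ↔ F l = [] := by
  simp [rel]

/-! ## T-PV families -/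

theorem TPV.rel {b : List ℕ} {T L : Fam} {f : ℕ → ℕ} (h : TPV b T L)
    (hf : Set.InjOn f (b.toFinset : Set ℕ)) : TPV (b.map f) (rel f T) (rel f L) where
  nd := by
    refine h.nd.map_on ?_
    intro x hx y hy hxy
    exact hf (by simpa using hx) (by simpa using hy) hxy
  mem := by
    intro l p hp
    rw [rel_append] at hp
    obtain ⟨q, hq, rfl⟩ := List.mem_map.1 hp
    obtain ⟨h1, h2, h3, h4⟩ := h.mem l q hq
    refine ⟨Finset.image_subset_image h1, ?_, ?_, ?_⟩
    · rw [relR_toFinset]
      exact Finset.image_subset_image h2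
    · rw [relR_card hf h2, h3]
    · rw [relR_card hf (h1.trans h2), h4]
  pw := by
    intro l
    rw [rel_append, List.pairwise_map]
    refine (h.pw l).imp_of_mem ?_
    intro p q hp hq hpq hh
    obtain ⟨p1, p2, -, -⟩ := h.mem l p hp
    obtain ⟨q1, q2, -, -⟩ := h.mem l q hq
    exact hpq ((relR_subset_iff hf (q1.trans q2) p2).1 hh)
  chain := by
    intro l
    unfold Ex.rel
    rw [List.isChain_map]
    exact (h.chain l).imp (fun p q hpq => Finset.image_subset_image hpq)
  cross := by
    intro l p hp q hq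
    rw [rel_append] at hp hq
    obtain ⟨p', hp', rfl⟩ := List.mem_map.1 hp
    obtain ⟨q', hq', rfl⟩ := List.mem_map.1 hq
    obtain ⟨p1, p2, -, -⟩ := h.mem l p' hp'
    obtain ⟨q1, q2, -, -⟩ := h.mem (l + 1) q' hq'
    intro hh
    exact h.cross l p' hp' q' hq' ((relR_eq_iff hf (q1.trans q2) p2).1 hh)
  len := by
    intro l
    simp only [Ex.rel, List.length_map]
    exact h.len l
  tlen := by
    intro l
    simp only [Ex.rel, List.length_map]
    exact h.tlen l
  head := by
    intro l p hp
    unfold Ex.rel at hp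
    rw [List.head?_map] at hp
    obtain ⟨q, hq, rfl⟩ := Option.map_eq_some_iff.1 hp
    simp only
    rw [h.head l q hq, ← List.map_take, relR_toFinset]

theorem Ends.rel {a : List ℕ} {L : Fam} (f : ℕ → ℕ) (h : Ends a L) :
    Ends (a.map f) (rel f L) := by
  intro l p hp
  unfold Ex.rel at hp
  rw [List.getLast?_map] at hp
  obtain ⟨q, hq, rfl⟩ := Option.map_eq_some_iff.1 hp
  simp only
  rw [h l q hq, ← List.map_take, relR_toFinset]

theorem PV.rel {b a : List ℕ} {L : Fam} {f : ℕ → ℕ} (h : PV b a L)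
    (hf : Set.InjOn f (b.toFinset : Set ℕ)) : PV (b.map f) (a.map f) (rel f L) where
  tpv := by
    have := h.tpv.rel hf
    rwa [rel_nil] at this
  ends := h.ends.rel f
  perm := h.perm.map f

theorem Avoid.rel {b : List ℕ} {T L : Fam} {f : ℕ → ℕ} {M : Finset ℕ} (hT : TPV b T L)
    (h : Avoid L M) (hM : M ⊆ b.toFinset)
    (hf : Set.InjOn f (b.toFinset : Set ℕ)) : Avoid (rel f L) (M.image f) := by
  intro l p hp
  unfold Ex.rel at hp
  obtain ⟨q, hq, rfl⟩ := List.mem_map.1 hp
  obtain ⟨q1, q2, -, -⟩ := hT.mem l q (List.mem_append_right _ hq)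
  intro hh
  exact h l q hq ((relR_eq_iff hf (q1.trans q2) hM).1 hh)

/-! ## special families -/

theorem SP.rel {κ q A B z Z : ℕ} {b a : List ℕ} {T L : Fam} {f : ℕ → ℕ}
    (h : SP κ q A B z Z b a T L) (hf : Set.InjOn f (b.toFinset : Set ℕ))
    (hm : κ ∈ b ∧ q ∈ b ∧ A ∈ b ∧ B ∈ b ∧ z ∈ b ∧ Z ∈ b) :
    SP (f κ) (f q) (f A) (f B) (f z) (f Z) (b.map f) (a.map f) (rel f T) (rel f L) := by
  obtain ⟨mκ, mq, mA, mB, mz, mZ⟩ := hm
  rw [← List.mem_toFinset] at mκ mq mA mB mz mZ
  have key : ∀ M : Finset ℕ, M ⊆ b.toFinset →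
      (b.toFinset \ M).image f = (b.map f).toFinset \ M.image f := by
    intro M hM
    rw [relR_sdiff hf (Finset.Subset.refl _) hM, relR_toFinset]
  refine ⟨h.tpv.rel hf, h.ends.rel f, h.perm.map f, ?_, ?_, ?_, ?_⟩
  · rw [List.length_map]
    unfold Ex.rel
    rw [h.t2]
    simp only [List.map_cons, List.map_nil]
    rw [key {κ} (by simpa using mκ), key {κ, A} (by
      intro x hx
      simp only [Finset.mem_insert, Finset.mem_singleton] at hx
      rcases hx with rfl | rfl <;> assumption)]
    simp [Finset.image_insert]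
  · rw [List.length_map]
    unfold Ex.rel
    rw [h.t3]
    simp only [List.map_cons, List.map_nil]
    rw [key {κ, z} (by
      intro x hx
      simp only [Finset.mem_insert, Finset.mem_singleton] at hx
      rcases hx with rfl | rfl <;> assumption), key {κ, z, Z} (by
      intro x hx
      simp only [Finset.mem_insert, Finset.mem_singleton] at hx
      rcases hx with rfl | rfl | rfl <;> assumption)]
    simp [Finset.image_insert]
  · rw [List.length_map]
    unfold Ex.rel
    rw [h.t4]
    simp only [List.map_cons, List.map_nil]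
    rw [key {κ, q, A} (by
      intro x hx
      simp only [Finset.mem_insert, Finset.mem_singleton] at hx
      rcases hx with rfl | rfl | rfl <;> assumption), key {κ, q, A, B} (by
      intro x hx
      simp only [Finset.mem_insert, Finset.mem_singleton] at hx
      rcases hx with rfl | rfl | rfl | rfl <;> assumption)]
    simp [Finset.image_insert]
  · intro l h1 h2 h3
    rw [List.length_map] at h1 h2 h3
    unfold Ex.rel
    rw [h.tnone l h1 h2 h3]
    rfl

/-! ## W-structures -/

theorem zz_image {f : ℕ → ℕ} {q1 r1 q2 r2 Ap : ℕ} {S : Finset ℕ}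
    (hf : Set.InjOn f (S : Set ℕ)) (hAp : Ap ∈ S) (hr2 : r2 ∈ S) (hq2 : q2 ∈ S) :
    (zz Ap q1 r1 q2 r2).image f = zz (f Ap) (f q1) (f r1) (f q2) (f r2) := by
  have e1 : f Ap = f r2 ↔ Ap = r2 :=
    ⟨fun h => hf (Finset.mem_coe.2 hAp) (Finset.mem_coe.2 hr2) h, fun h => by rw [h]⟩
  have e2 : f Ap = f q2 ↔ Ap = q2 :=
    ⟨fun h => hf (Finset.mem_coe.2 hAp) (Finset.mem_coe.2 hq2) h, fun h => by rw [h]⟩
  unfold zz
  by_cases h : Ap = r2 ∨ Ap = q2
  · rw [if_pos h, if_pos (by rw [e1, e2]; exact h)]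
    simp [Finset.image_insert]
  · rw [if_neg h, if_neg (by rw [e1, e2]; exact h)]
    simp [Finset.image_insert]

theorem Pk_image {f : ℕ → ℕ} {nodd : Bool} {q1 r1 q2 r2 x w Ap : ℕ} {D : List ℕ}
    (hf : Set.InjOn f ((q1 :: r1 :: q2 :: r2 :: x :: w :: D).toFinset : Set ℕ))
    (hAp : Ap = r1 ∨ Ap = r2) (l : ℕ) :
    (Pk nodd q1 r1 q2 r2 x w Ap D l).image f =
      Pk nodd (f q1) (f r1) (f q2) (f r2) (f x) (f w) (f Ap) (D.map f) l := by
  have hS : ((q1 :: r1 :: q2 :: r2 :: x :: w :: D).toFinset).image f =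
      (f q1 :: f r1 :: f q2 :: f r2 :: f x :: f w :: D.map f).toFinset := by
    rw [← relR_toFinset]
    rfl
  set S := (q1 :: r1 :: q2 :: r2 :: x :: w :: D).toFinset with hSdef
  have mq1 : q1 ∈ S := by simp [hSdef]
  have mr1 : r1 ∈ S := by simp [hSdef]
  have mq2 : q2 ∈ S := by simp [hSdef]
  have mr2 : r2 ∈ S := by simp [hSdef]
  have mx : x ∈ S := by simp [hSdef]
  have mw : w ∈ S := by simp [hSdef]
  have mAp : Ap ∈ S := by
    rcases hAp with rfl | rfl <;> assumption
  have mzz : zz Ap q1 r1 q2 r2 ⊆ S := by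
    unfold zz
    split_ifs
    · intro y hy
      simp only [Finset.mem_insert, Finset.mem_singleton] at hy
      rcases hy with rfl | rfl <;> assumption
    · intro y hy
      simp only [Finset.mem_insert, Finset.mem_singleton] at hy
      rcases hy with rfl | rfl <;> assumption
  have key : ∀ M : Finset ℕ, M ⊆ S → (S \ M).image f =
      (f q1 :: f r1 :: f q2 :: f r2 :: f x :: f w :: D.map f).toFinset \ M.image f := by
    intro M hM
    rw [relR_sdiff hf (Finset.Subset.refl _) hM, hS]
  unfold Pk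
  simp only [List.length_map]
  by_cases h1 : l ≤ D.length + 1
  · rw [if_pos h1, if_pos h1, Finset.image_union, ← List.map_take, relR_toFinset]
    congr 1
    split_ifs
    · simp [Finset.image_insert]
    · simp [Finset.image_insert]
  · rw [if_neg h1, if_neg h1]
    cases nodd with
    | true =>
      simp only [if_true]
      by_cases h2 : l = D.length + 2
      · rw [if_pos h2, if_pos h2, ← hSdef, key {Ap, x, w} (by
          intro y hy
          simp only [Finset.mem_insert, Finset.mem_singleton] at hy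
          rcases hy with rfl | rfl | rfl <;> assumption)]
        simp [Finset.image_insert]
      · rw [if_neg h2, if_neg h2]
        by_cases h3 : l = D.length + 3
        · rw [if_pos h3, if_pos h3, ← hSdef, key {Ap, w} (by
            intro y hy
            simp only [Finset.mem_insert, Finset.mem_singleton] at hy
            rcases hy with rfl | rfl <;> assumption)]
          simp [Finset.image_insert]
        · rw [if_neg h3, if_neg h3, ← hSdef, key {w} (by
            intro y hy
            simp only [Finset.mem_singleton] at hy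
            rw [hy]
            exact mw)]
          simp
    | false =>
      simp only [Bool.false_eq_true, if_false]
      by_cases h2 : l = D.length + 2
      · rw [if_pos h2, if_pos h2, ← hSdef, key (insert w (zz Ap q1 r1 q2 r2)) (by
          intro y hy
          rcases Finset.mem_insert.1 hy with rfl | hy
          · exact mw
          · exact mzz hy), Finset.image_insert, zz_image hf mAp mr2 mq2]
      · rw [if_neg h2, if_neg h2, ← hSdef, key {Ap, w} (by
          intro y hy
          simp only [Finset.mem_insert, Finset.mem_singleton] at hy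
          rcases hy with rfl | rfl <;> assumption)]
        simp [Finset.image_insert]

theorem WT.toFinset_eq {nodd : Bool} {q1 r1 q2 r2 x w Ap : ℕ} {D b : List ℕ} {T L : Fam}
    (h : WT nodd q1 r1 q2 r2 x w Ap D b T L) :
    b.toFinset = (q1 :: r1 :: q2 :: r2 :: x :: w :: D).toFinset := by
  obtain ⟨d1, D1, a', rfl, ha, rfl⟩ := h.form
  ext y
  have := ha.mem_iff (a := y)
  simp only [List.toFinset_append, List.toFinset_cons, List.toFinset_nil, Finset.mem_union,
    Finset.mem_insert, List.mem_toFinset, Finset.notMem_empty, or_false, this]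
  tauto

theorem WT.rel {nodd : Bool} {q1 r1 q2 r2 x w Ap : ℕ} {D b : List ℕ} {T L : Fam} {f : ℕ → ℕ}
    (h : WT nodd q1 r1 q2 r2 x w Ap D b T L) (hAp : Ap = r1 ∨ Ap = r2)
    (hf : Set.InjOn f (b.toFinset : Set ℕ)) :
    WT nodd (f q1) (f r1) (f q2) (f r2) (f x) (f w) (f Ap) (D.map f) (b.map f) (rel f T)
      (rel f L) := by
  have hS := h.toFinset_eq
  have hf' : Set.InjOn f ((q1 :: r1 :: q2 :: r2 :: x :: w :: D).toFinset : Set ℕ) := by
    rw [← hS]
    exact hf
  refine ⟨h.tpv.rel hf, ?_, ?_, ?_, ?_, ?_, ?_⟩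
  · have : (f q1 :: f r1 :: f q2 :: f r2 :: f x :: f w :: D.map f) =
      (q1 :: r1 :: q2 :: r2 :: x :: w :: D).map f := rfl
    rw [this]
    refine h.nd.map_on ?_
    intro y hy z hz hyz
    exact hf' (Finset.mem_coe.2 (List.mem_toFinset.2 hy)) (Finset.mem_coe.2 (List.mem_toFinset.2 hz))
      hyz
  · obtain ⟨d1, D1, a', h1, h2, h3⟩ := h.form
    refine ⟨f d1, D1.map f, a'.map f, ?_, h2.map f, ?_⟩
    · rw [h1]
      rfl
    · rw [h3]
      simp
  · intro l h1 h2
    have h2' : l ≤ topT nodd D := by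
      simpa [topT] using h2
    obtain ⟨c, hc⟩ := h.tsome l h1 h2'
    refine ⟨c.image f, ?_⟩
    unfold Ex.rel
    rw [hc]
    simp only [List.map_cons, List.map_nil]
    rw [Pk_image hf' hAp]
  · intro l hl
    have hl' : l = 0 ∨ topT nodd D < l := by
      simpa [topT] using hl
    rw [rel_eq_nil_iff]
    exact h.tnone l hl'
  · intro l h1 p hp q hq
    unfold Ex.rel at hp hq
    rw [List.getLast?_map] at hp
    obtain ⟨p', hp', rfl⟩ := Option.map_eq_some_iff.1 hp
    obtain ⟨q', hq', rfl⟩ := List.mem_map.1 hq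
    exact Finset.image_subset_image (h.link l h1 p' hp' q' hq')
  · intro l h1 p hp q hq
    have h1' : l = topT nodd D := by
      simpa [topT] using h1
    unfold Ex.rel at hp hq
    rw [List.getLast?_map] at hp hq
    obtain ⟨p', hp', rfl⟩ := Option.map_eq_some_iff.1 hp
    obtain ⟨q', hq', rfl⟩ := Option.map_eq_some_iff.1 hq
    exact Finset.image_subset_image (h.toplink l h1' p' hp' q' hq')

/-! ## existence of relabellings -/

/-- A nodup list `b` can be sent to any list `c` of the same length; the map is injective on `b`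
if `c` is nodup. -/
theorem exists_relabel {b c : List ℕ} (hb : b.Nodup) (hc : c.Nodup) (hlen : b.length = c.length) :
    ∃ f : ℕ → ℕ, b.map f = c ∧ Set.InjOn f (b.toFinset : Set ℕ) := by
  have hmap : b.map (fun x => c.getD (b.idxOf x) 0) = c := by
    apply List.ext_getElem
    · simp [hlen]
    · intro i h1 h2
      rw [List.getElem_map, hb.idxOf_getElem]
      rw [List.getD_eq_getElem _ _ h2]
  refine ⟨fun x => c.getD (b.idxOf x) 0, hmap, ?_⟩
  have hnd : (b.map (fun x => c.getD (b.idxOf x) 0)).Nodup := by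
    rw [hmap]
    exact hc
  intro x hx y hy hxy
  have hx' : x ∈ b := by simpa using hx
  have hy' : y ∈ b := by simpa using hy
  exact List.inj_on_of_nodup_map hnd hx' hy' hxy

end Pool.Agent.Lib.MP_ad4d1c_co_h48.Ex
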